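import Pool.Agent.helper42.NS.Spec

set_option autoImplicit false

namespace Pool.Agent.helper42.NS

open Polynomial Matrix

theorem DIV : DIV_stmt := by
  classical
  intro F hF
  have hFm : F.map (Int.castRingHom ℂ) ≠ 0 := (hF.map _).ne_zero
  have hmaps : ∀ f ∈ {f : ℤ[X] | f.Monic ∧ f ∣ F}, (f.map (Int.castRingHom ℂ)).roots ∈
      ((F.map (Int.castRingHom ℂ)).roots.powerset.toFinset : Set (Multiset ℂ)) := by
    rintro f ⟨hf, hd⟩
    rw [Finset.mem_coe, Multiset.mem_toFinset, Multiset.mem_powerset]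
    exact Polynomial.roots.le_of_dvd hFm (Polynomial.map_dvd _ hd)
  have hinj : Set.InjOn (fun f : ℤ[X] => (f.map (Int.castRingHom ℂ)).roots)
      {f : ℤ[X] | f.Monic ∧ f ∣ F} := by
    rintro f ⟨hf, -⟩ g ⟨hg, -⟩ h
    have h1 : f.map (Int.castRingHom ℂ) = g.map (Int.castRingHom ℂ) := by
      have e1 := (IsAlgClosed.splits (f.map (Int.castRingHom ℂ))).eq_prod_roots_of_monic (hf.map _)
      have e2 := (IsAlgClosed.splits (g.map (Int.castRingHom ℂ))).eq_prod_roots_of_monic (hg.map _)
      rw [e1, e2]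
      have h' : (f.map (Int.castRingHom ℂ)).roots = (g.map (Int.castRingHom ℂ)).roots := h
      rw [h']
    exact Polynomial.map_injective _ (RingHom.injective_int (Int.castRingHom ℂ)) h1
  have hfin : ((F.map (Int.castRingHom ℂ)).roots.powerset.toFinset : Set (Multiset ℂ)).Finite :=
    Finset.finite_toSet _
  refine ⟨Set.Finite.of_injOn hmaps hinj hfin, ?_⟩
  refine (Set.ncard_le_ncard_of_injOn _ hmaps hinj hfin).trans ?_
  rw [Set.ncard_coe_finset]
  refine (Multiset.toFinset_card_le _).trans ?_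
  rw [Multiset.card_powerset]
  refine Nat.pow_le_pow_right (by norm_num) ?_
  refine (Polynomial.card_roots' _).trans ?_
  exact Polynomial.natDegree_map_le

end Pool.Agent.helper42.NS
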