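import Pool.Agent.helper42.NS.Spec2
import Pool.Agent.helper49.NS.EXR

set_option autoImplicit false

namespace Pool.Agent.helper42.NS

open Polynomial Matrix

theorem EXS_ki2 (h4 : KI2_stmt) (P : Pt) (t a k : ℕ) (H : Matrix (Fin t) (Fin t) ℤ)
    (hb : ∀ u ∈ EigK (KP P) (lamP P) H, u ≠ 0 →
      Set.ncard {b : Fin t → Bool | dotb b u = 0} * 2 ^ a ≤ 2 ^ t) :
    Set.ncard {B : Fin k → Fin t → Bool | Bad P H B} * 2 ^ (a * (k + 1 - crk P H)) ≤
      2 ^ k * 2 ^ (t * k) := by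
  have := P.isMaximal
  letI : Field (KP P) := Ideal.Quotient.field P.asIdeal
  exact h4 (KP P) t a k (EigK (KP P) (lamP P) H) hb

theorem EXS (h1 : PTP_stmt) (h2 : FIN_stmt) (h3 : LOA_stmt) (h4 : KI2_stmt) : EXS_stmt := by
  intro a t p H ha hp hpa hsym hR ht hc
  by_contra hcon
  push Not at hcon
  -- the finite set of the relevant points
  have hfin : Set.Finite {P : Pt | Above p P ∧ crk P H ≠ 0} := by
    by_contra hinf
    obtain ⟨s, hs, hcard⟩ := Set.Infinite.exists_subset_card_eq (s := {P : Pt | Above p P ∧ crk P H ≠ 0})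
      hinf (t + 1)
    have := h1 t H p hp hsym s (fun P hP => hs hP)
    omega
  obtain ⟨F, hF⟩ := hfin.exists_finset_coe
  have hFm : ∀ P, P ∈ F ↔ (Above p P ∧ crk P H ≠ 0) := by
    intro P
    rw [← Finset.mem_coe, hF]
    rfl
  have hFc : F.card ≤ t := h1 t H p hp hsym F (fun P hP => (hFm P).1 hP)
  have hcov : (Set.univ : Set (Fin 36 → Fin t → Bool)) ⊆
      ⋃ P ∈ F, {B : Fin 36 → Fin t → Bool | Bad P H B} := by
    intro B _
    obtain ⟨P, hP, hB⟩ := hcon B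
    rw [Set.mem_iUnion₂]
    exact ⟨P, (hFm P).2 ⟨hP, EXR_bad P t H _ B hB⟩, hB⟩
  have hcard : 2 ^ (t * 36) ≤
      ∑ P ∈ F, Set.ncard {B : Fin 36 → Fin t → Bool | Bad P H B} := by
    have h3 : (Set.univ : Set (Fin 36 → Fin t → Bool)).ncard = 2 ^ (t * 36) := by
      rw [Set.ncard_univ, Nat.card_eq_fintype_card]
      simp only [Fintype.card_fun, Fintype.card_bool, Fintype.card_fin]
      rw [← pow_mul]
    rw [← h3]
    refine (Set.ncard_le_ncard hcov (Set.toFinite _)).trans ?_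
    exact Finset.set_ncard_biUnion_le F _
  have hbad : ∀ P ∈ F, Set.ncard {B : Fin 36 → Fin t → Bool | Bad P H B} * 2 ^ (13 * a) ≤
      2 ^ 36 * 2 ^ (t * 36) := by
    intro P hP
    have hab := ((hFm P).1 hP).1
    have hSm : ¬ Sm a P := by
      rintro ⟨p', hp', hab', hlt⟩
      obtain ⟨-, p₀, -, -, huniq, -⟩ := h2 P
      have e1 := huniq p' hp' hab'
      have e2 := huniq p hp hab
      omega
    have h5 := EXS_ki2 h4 P t a 36 H (fun u hu hu0 => h3 a t P u (by omega) hSm (hR P hSm u hu hu0))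
    refine le_trans (Nat.mul_le_mul_left _ (Nat.pow_le_pow_right (by norm_num) ?_)) h5
    have h6 := hc P hab
    rw [mul_comm 13 a]
    exact Nat.mul_le_mul_left a (by omega)
  have hmul : 2 ^ (t * 36) * 2 ^ (13 * a) ≤ 2 ^ (t * 36) * 2 ^ (10 * a + 36) := by
    calc 2 ^ (t * 36) * 2 ^ (13 * a)
        ≤ (∑ P ∈ F, Set.ncard {B : Fin 36 → Fin t → Bool | Bad P H B}) * 2 ^ (13 * a) :=
          Nat.mul_le_mul_right _ hcard
      _ = ∑ P ∈ F, Set.ncard {B : Fin 36 → Fin t → Bool | Bad P H B} * 2 ^ (13 * a) :=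
          Finset.sum_mul _ _ _
      _ ≤ ∑ P ∈ F, 2 ^ 36 * 2 ^ (t * 36) := Finset.sum_le_sum hbad
      _ = F.card * (2 ^ 36 * 2 ^ (t * 36)) := by
          rw [Finset.sum_const, smul_eq_mul]
      _ ≤ 2 ^ (10 * a) * (2 ^ 36 * 2 ^ (t * 36)) := Nat.mul_le_mul_right _ (hFc.trans ht)
      _ = 2 ^ (t * 36) * 2 ^ (10 * a + 36) := by
          rw [pow_add 2 (10 * a) 36]
          ring
  have h8 : 2 ^ (13 * a) ≤ 2 ^ (10 * a + 36) :=
    Nat.le_of_mul_le_mul_left hmul (by positivity)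
  have h9 : 13 * a ≤ 10 * a + 36 := (Nat.pow_le_pow_iff_right (by norm_num)).1 h8
  omega

end Pool.Agent.helper42.NS
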