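import Pool.Agent.helper42.NS.Spec2
import Pool.Agent.helper79.NS.KIL

set_option autoImplicit false

namespace Pool.Agent.helper42.NS

open Finset

theorem KI2 : KI2_stmt := by
  classical
  intro K _ t e k
  induction k with
  | zero =>
    intro E _
    rcases Set.eq_empty_or_nonempty {B : Fin 0 → Fin t → Bool | ∃ u ∈ E, u ≠ 0 ∧
      ∀ i, dotb (B i) u = 0} with h0 | ⟨B, u, hu, hu0, -⟩
    · rw [h0, Set.ncard_empty, zero_mul]
      exact Nat.zero_le _
    · have h1 : Set.ncard {B : Fin 0 → Fin t → Bool | ∃ u ∈ E, u ≠ 0 ∧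
          ∀ i, dotb (B i) u = 0} ≤ 1 := by
        rw [KIL_ncard]
        refine (Finset.card_le_univ _).trans ?_
        simp
      have h2 : 0 < Module.finrank K E := by
        rw [Module.finrank_pos_iff]
        exact ⟨⟨u, hu⟩, 0, fun hh => hu0 (congrArg Subtype.val hh)⟩
      have h3 : 0 + 1 - Module.finrank K E = 0 := by omega
      rw [h3, Nat.mul_zero, Nat.mul_zero, pow_zero, mul_one, mul_one]
      exact h1
  | succ k ih =>
    intro E hE1
    -- the subspaces
    let Eb : (Fin t → Bool) → Submodule K (Fin t → K) := fun b => E ⊓ LinearMap.ker (KIL_phi K b)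
    have hEb : ∀ b u, u ∈ Eb b ↔ u ∈ E ∧ dotb b u = 0 := by
      intro b u
      rw [Submodule.mem_inf, LinearMap.mem_ker, KIL_phi_apply]
    by_cases hE : E = ⊥
    · have h0 : {B : Fin (k + 1) → Fin t → Bool | ∃ u ∈ E, u ≠ 0 ∧
          ∀ i, dotb (B i) u = 0} = ∅ := by
        rw [Set.eq_empty_iff_forall_notMem]
        rintro B ⟨u, hu, hu0, -⟩
        rw [hE, Submodule.mem_bot] at hu
        exact hu0 hu
      rw [h0, Set.ncard_empty, zero_mul]
      exact Nat.zero_le _
    have hd : 1 ≤ Module.finrank K E := by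
      rw [Nat.one_le_iff_ne_zero]
      intro h0
      exact hE (Submodule.finrank_eq_zero.1 h0)
    obtain ⟨d, hd'⟩ : ∃ d, Module.finrank K E = d + 1 := ⟨Module.finrank K E - 1, by omega⟩
    -- the sum over the first vector
    have hsum : Set.ncard {B : Fin (k + 1) → Fin t → Bool | ∃ u ∈ E, u ≠ 0 ∧
        ∀ i, dotb (B i) u = 0} = ∑ b : Fin t → Bool, Set.ncard {B : Fin k → Fin t → Bool |
          ∃ u ∈ Eb b, u ≠ 0 ∧ ∀ i, dotb (B i) u = 0} := by
      rw [KIL_ncard, Finset.card_filter]
      rw [← (Fin.consEquiv (fun _ : Fin (k + 1) => Fin t → Bool)).sum_comp, Fintype.sum_prod_type]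
      refine Finset.sum_congr rfl fun b _ => ?_
      rw [KIL_ncard, Finset.card_filter]
      refine Finset.sum_congr rfl fun B _ => ?_
      congr 1
      apply propext
      constructor
      · rintro ⟨u, hu, hu0, hi⟩
        refine ⟨u, (hEb b u).2 ⟨hu, hi 0⟩, hu0, fun i => hi i.succ⟩
      · rintro ⟨u, hu, hu0, hi⟩
        rw [hEb] at hu
        refine ⟨u, hu.1, hu0, fun i => ?_⟩
        refine Fin.cases ?_ (fun j => ?_) i
        · exact hu.2
        · exact hi j
    -- the vectors orthogonal to `E`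
    let Q : Finset (Fin t → Bool) := univ.filter fun b => ∀ u ∈ E, dotb b u = 0
    have hQ1 : Q.card * 2 ^ e ≤ 2 ^ t := by
      obtain ⟨u, hu, hu0⟩ := Submodule.exists_mem_ne_zero_of_ne_bot hE
      refine le_trans (Nat.mul_le_mul_right _ ?_) (hE1 u hu hu0)
      rw [KIL_ncard]
      refine Finset.card_le_card fun b hb => ?_
      rw [Finset.mem_filter] at hb ⊢
      exact ⟨hb.1, hb.2 u hu⟩
    have hcard : (univ : Finset (Fin t → Bool)).card = 2 ^ t := by
      rw [Finset.card_univ, Fintype.card_pi_const, Fintype.card_bool]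
    have hex : e * (k + 1 + 1 - Module.finrank K E) ≤ e * (k + 1 - Module.finrank K E) + e := by
      have : k + 1 + 1 - Module.finrank K E ≤ k + 1 - Module.finrank K E + 1 := by omega
      calc e * (k + 1 + 1 - Module.finrank K E) ≤ e * (k + 1 - Module.finrank K E + 1) :=
            Nat.mul_le_mul_left e this
        _ = _ := by ring
    have hb : ∀ b : Fin t → Bool, Set.ncard {B : Fin k → Fin t → Bool |
          ∃ u ∈ Eb b, u ≠ 0 ∧ ∀ i, dotb (B i) u = 0} * 2 ^ (e * (k + 1 + 1 - Module.finrank K E)) ≤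
        (if b ∈ Q then 2 ^ e else 1) * (2 ^ k * 2 ^ (t * k)) := by
      intro b
      have hI := ih (Eb b) (fun u hu hu0 => hE1 u ((hEb b u).1 hu).1 hu0)
      by_cases hbQ : b ∈ Q
      · rw [if_pos hbQ]
        have h1 : Module.finrank K (Eb b) ≤ Module.finrank K E := Submodule.finrank_mono inf_le_left
        calc _ ≤ Set.ncard {B : Fin k → Fin t → Bool |
              ∃ u ∈ Eb b, u ≠ 0 ∧ ∀ i, dotb (B i) u = 0} *
                2 ^ (e * (k + 1 - Module.finrank K (Eb b)) + e) := by
              refine Nat.mul_le_mul_left _ (Nat.pow_le_pow_right (by norm_num) ?_)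
              refine hex.trans (Nat.add_le_add_right (Nat.mul_le_mul_left e ?_) e)
              omega
          _ = (Set.ncard {B : Fin k → Fin t → Bool |
              ∃ u ∈ Eb b, u ≠ 0 ∧ ∀ i, dotb (B i) u = 0} *
                2 ^ (e * (k + 1 - Module.finrank K (Eb b)))) * 2 ^ e := by
              rw [pow_add, mul_assoc]
          _ ≤ (2 ^ k * 2 ^ (t * k)) * 2 ^ e := Nat.mul_le_mul_right _ hI
          _ = _ := by ring
      · rw [if_neg hbQ, one_mul]
        have h1 : Module.finrank K (Eb b) < Module.finrank K E := by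
          apply Submodule.finrank_lt_finrank_of_lt
          refine lt_of_le_of_ne inf_le_left ?_
          intro hh
          apply hbQ
          rw [Finset.mem_filter]
          refine ⟨Finset.mem_univ _, fun u hu => ?_⟩
          have h2 : u ∈ Eb b := by rw [hh]; exact hu
          exact ((hEb b u).1 h2).2
        refine le_trans (Nat.mul_le_mul_left _ (Nat.pow_le_pow_right (by norm_num) ?_)) hI
        refine Nat.mul_le_mul_left e ?_
        omega
    have hfin : (∑ b : Fin t → Bool, (if b ∈ Q then 2 ^ e else 1)) ≤ 2 * 2 ^ t := by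
      rw [Finset.sum_ite, Finset.sum_const, Finset.sum_const, smul_eq_mul, smul_eq_mul, mul_one]
      have h1 : (univ.filter fun b => b ∈ Q) = Q := by
        ext b
        simp
      have h2 : (univ.filter fun b => b ∉ Q).card ≤ 2 ^ t := by
        rw [← hcard]
        exact Finset.card_le_univ _
      rw [h1]
      omega
    calc Set.ncard {B : Fin (k + 1) → Fin t → Bool | ∃ u ∈ E, u ≠ 0 ∧
        ∀ i, dotb (B i) u = 0} * 2 ^ (e * (k + 1 + 1 - Module.finrank K E))
        = ∑ b : Fin t → Bool, Set.ncard {B : Fin k → Fin t → Bool |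
          ∃ u ∈ Eb b, u ≠ 0 ∧ ∀ i, dotb (B i) u = 0} *
            2 ^ (e * (k + 1 + 1 - Module.finrank K E)) := by
          rw [hsum, Finset.sum_mul]
      _ ≤ ∑ b : Fin t → Bool, (if b ∈ Q then 2 ^ e else 1) * (2 ^ k * 2 ^ (t * k)) :=
          Finset.sum_le_sum fun b _ => hb b
      _ = (∑ b : Fin t → Bool, (if b ∈ Q then 2 ^ e else 1)) * (2 ^ k * 2 ^ (t * k)) := by
          rw [← Finset.sum_mul]
      _ ≤ (2 * 2 ^ t) * (2 ^ k * 2 ^ (t * k)) := Nat.mul_le_mul_right _ hfin
      _ = 2 ^ (k + 1) * 2 ^ (t * (k + 1)) := by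
          ring

end Pool.Agent.helper42.NS
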