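import Pool.Agent.helper42.NS.Spec2
import Pool.Agent.helper38.NS.CNT

set_option autoImplicit false

namespace Pool.Agent.helper42.NS

open Polynomial Matrix

/-! ### The number of graphs -/

theorem R1C_tl {t : ℕ} {H : Matrix (Fin (t + 1)) (Fin (t + 1)) ℤ} (hH : IsGr H) :
    IsGr (tl H) ∧ H = bord (tl H) (ind (fun j => decide (H 0 j.succ = 1))) := by
  refine ⟨⟨fun i j => hH.1 _ _, fun i => hH.2.1 _, fun i j => hH.2.2 _ _⟩, ?_⟩
  have hrow : ∀ j : Fin t, H 0 j.succ = ind (fun j => decide (H 0 j.succ = 1)) j := by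
    intro j
    unfold ind
    rcases hH.1 0 j.succ with h | h <;> simp [h]
  ext i j
  refine Fin.cases ?_ (fun i => ?_) i
  · refine Fin.cases ?_ (fun j => ?_) j
    · rw [bord_zero_zero]
      exact hH.2.1 0
    · rw [bord_zero_succ]
      exact hrow j
  · refine Fin.cases ?_ (fun j => ?_) j
    · rw [bord_succ_zero, hH.2.2]
      exact hrow i
    · rw [bord_succ_succ]
      rfl

theorem R1C_total (t : ℕ) : Set.ncard {H : Matrix (Fin t) (Fin t) ℤ | IsGr H} ≤ 2 ^ (t.choose 2) := by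
  induction t with
  | zero =>
    refine (Set.ncard_le_one (Set.toFinite _)).2 ?_
    intro a _ b _
    exact Subsingleton.elim a b
  | succ t ih =>
    have h1 : {H : Matrix (Fin (t + 1)) (Fin (t + 1)) ℤ | IsGr H} ⊆
        (fun q : Matrix (Fin t) (Fin t) ℤ × (Fin t → Bool) => bord q.1 (ind q.2)) ''
          ({H : Matrix (Fin t) (Fin t) ℤ | IsGr H} ×ˢ Set.univ) := by
      intro H hH
      obtain ⟨h2, h3⟩ := R1C_tl hH
      exact ⟨(tl H, fun j => decide (H 0 j.succ = 1)), ⟨h2, Set.mem_univ _⟩, h3.symm⟩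
    have hf : ({H : Matrix (Fin t) (Fin t) ℤ | IsGr H} ×ˢ (Set.univ : Set (Fin t → Bool))).Finite :=
      (CNT_fin t).prod Set.finite_univ
    have h2 := (Set.ncard_le_ncard h1 (hf.image _)).trans (Set.ncard_image_le hf)
    rw [Set.ncard_prod, Set.ncard_univ, Nat.card_eq_fintype_card, Fintype.card_fun,
      Fintype.card_bool, Fintype.card_fin] at h2
    refine h2.trans ?_
    have h3 : (t + 1).choose 2 = t.choose 2 + t := by
      rw [Nat.choose_succ_succ' t 1, Nat.choose_one_right, add_comm]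
    rw [h3, pow_add]
    exact Nat.mul_le_mul_right _ ih

/-! ### The cross part -/

/-- the set of the matrices in TAL -/
def R1C_T (N s : ℕ) : Set (Fin N → Fin s → Bool) :=
  {A | ∃ p : ℕ, p.Prime ∧ ∃ u : Fin s → ZMod p, u ≠ 0 ∧ ∀ i, dotb (A i) u = 0}

/-- the bad graphs for `S` -/
def R1C_B {t : ℕ} (S : Finset (Fin t)) : Set (Matrix (Fin t) (Fin t) ℤ) :=
  {H | IsGr H ∧ ∃ p : ℕ, p.Prime ∧ ∃ v : Fin t → ZMod p, (∃ i ∈ S, v i ≠ 0) ∧
    ∀ j, j ∉ S → ∑ i ∈ S, (H j i : ZMod p) * v i = 0}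

section cross

variable {t s N : ℕ} (S : Finset (Fin t)) (e : Fin s ≃ {x // x ∈ S}) (e' : Fin N ≃ {x // x ∉ S})

/-- the cross part -/
def R1C_cr (H : Matrix (Fin t) (Fin t) ℤ) : Fin N → Fin s → Bool :=
  fun r c => decide (H (e' r : Fin t) (e c : Fin t) = 1)

/-- replacement of the cross part -/
def R1C_rep (H : Matrix (Fin t) (Fin t) ℤ) (A : Fin N → Fin s → Bool) :
    Matrix (Fin t) (Fin t) ℤ := Matrix.of fun i j =>
  if hi : i ∈ S then
    if hj : j ∈ S then H i j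
    else if A (e'.symm ⟨j, hj⟩) (e.symm ⟨i, hi⟩) then 1 else 0
  else
    if hj : j ∈ S then (if A (e'.symm ⟨i, hi⟩) (e.symm ⟨j, hj⟩) then 1 else 0)
    else H i j

theorem R1C_rep_gr {H : Matrix (Fin t) (Fin t) ℤ} (hH : IsGr H) (A : Fin N → Fin s → Bool) :
    IsGr (R1C_rep S e e' H A) := by
  refine ⟨?_, ?_, ?_⟩
  · intro i j
    unfold R1C_rep
    simp only [Matrix.of_apply]
    by_cases hi : i ∈ S <;> by_cases hj : j ∈ S
    · rw [dif_pos hi, dif_pos hj]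
      exact hH.1 i j
    · rw [dif_pos hi, dif_neg hj]
      split_ifs
      · exact Or.inr rfl
      · exact Or.inl rfl
    · rw [dif_neg hi, dif_pos hj]
      split_ifs
      · exact Or.inr rfl
      · exact Or.inl rfl
    · rw [dif_neg hi, dif_neg hj]
      exact hH.1 i j
  · intro i
    unfold R1C_rep
    simp only [Matrix.of_apply]
    by_cases hi : i ∈ S
    · rw [dif_pos hi, dif_pos hi]
      exact hH.2.1 i
    · rw [dif_neg hi, dif_neg hi]
      exact hH.2.1 i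
  · intro i j
    unfold R1C_rep
    simp only [Matrix.of_apply]
    by_cases hi : i ∈ S <;> by_cases hj : j ∈ S
    · rw [dif_pos hi, dif_pos hj, dif_pos hj, dif_pos hi]
      exact hH.2.2 i j
    · rw [dif_pos hi, dif_neg hj, dif_neg hj, dif_pos hi]
    · rw [dif_neg hi, dif_pos hj, dif_pos hj, dif_neg hi]
    · rw [dif_neg hi, dif_neg hj, dif_neg hj, dif_neg hi]
      exact hH.2.2 i j

theorem R1C_rep_ap (H : Matrix (Fin t) (Fin t) ℤ) (A : Fin N → Fin s → Bool) (r : Fin N) (c : Fin s) :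
    R1C_rep S e e' H A (e' r : Fin t) (e c : Fin t) = if A r c then 1 else 0 := by
  unfold R1C_rep
  simp only [Matrix.of_apply]
  rw [dif_neg (e' r).2, dif_pos (e c).2]
  rw [Subtype.coe_eta, Subtype.coe_eta, Equiv.symm_apply_apply, Equiv.symm_apply_apply]

theorem R1C_cr_rep (H : Matrix (Fin t) (Fin t) ℤ) (A : Fin N → Fin s → Bool) :
    R1C_cr S e e' (R1C_rep S e e' H A) = A := by
  funext r c
  unfold R1C_cr
  rw [R1C_rep_ap]
  cases A r c <;> simp

theorem R1C_rep_cr {H : Matrix (Fin t) (Fin t) ℤ} (hH : IsGr H) (A : Fin N → Fin s → Bool) :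
    R1C_rep S e e' (R1C_rep S e e' H A) (R1C_cr S e e' H) = H := by
  ext i j
  unfold R1C_rep R1C_cr
  simp only [Matrix.of_apply]
  by_cases hi : i ∈ S <;> by_cases hj : j ∈ S
  · rw [dif_pos hi, dif_pos hj, dif_pos hi, dif_pos hj]
  · rw [dif_pos hi, dif_neg hj, Equiv.apply_symm_apply, Equiv.apply_symm_apply]
    show (if decide (H j i = 1) = true then (1 : ℤ) else 0) = H i j
    rw [hH.2.2 i j]
    rcases hH.1 j i with h | h <;> simp [h]
  · rw [dif_neg hi, dif_pos hj, Equiv.apply_symm_apply, Equiv.apply_symm_apply]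
    show (if decide (H i j = 1) = true then (1 : ℤ) else 0) = H i j
    rcases hH.1 i j with h | h <;> simp [h]
  · rw [dif_neg hi, dif_neg hj, dif_neg hi, dif_neg hj]

theorem R1C_cross (T : Set (Fin N → Fin s → Bool)) :
    Set.ncard {H : Matrix (Fin t) (Fin t) ℤ | IsGr H ∧ R1C_cr S e e' H ∈ T} * 2 ^ (N * s) ≤
      2 ^ (t.choose 2) * T.ncard := by
  have hf1 : {H : Matrix (Fin t) (Fin t) ℤ | IsGr H ∧ R1C_cr S e e' H ∈ T}.Finite :=
    (CNT_fin t).subset fun H h => h.1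
  have h1 : (Set.univ : Set (Fin N → Fin s → Bool)).ncard = 2 ^ (N * s) := by
    rw [Set.ncard_univ, Nat.card_eq_fintype_card]
    simp only [Fintype.card_fun, Fintype.card_bool, Fintype.card_fin]
    rw [← pow_mul, mul_comm]
  rw [← h1, ← Set.ncard_prod]
  refine le_trans ?_ (Nat.mul_le_mul_right _ (R1C_total t))
  rw [← Set.ncard_prod]
  refine Set.ncard_le_ncard_of_injOn (fun q => (R1C_rep S e e' q.1 q.2, R1C_cr S e e' q.1)) ?_ ?_
    ((CNT_fin t).prod (Set.toFinite T))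
  · rintro ⟨H, A⟩ ⟨⟨h2, h3⟩, -⟩
    exact ⟨R1C_rep_gr S e e' h2 A, h3⟩
  · rintro ⟨H, A⟩ ⟨⟨h2, h3⟩, -⟩ ⟨H', A'⟩ ⟨⟨h2', h3'⟩, -⟩ h
    have h4 : R1C_rep S e e' H A = R1C_rep S e e' H' A' := congrArg Prod.fst h
    have h5 : R1C_cr S e e' H = R1C_cr S e e' H' := congrArg Prod.snd h
    have h6 : A = A' := by
      rw [← R1C_cr_rep S e e' H A, h4, R1C_cr_rep]
    have g2 : IsGr H := h2
    have g2' : IsGr H' := h2'
    have h7 : H = H' := by
      rw [← R1C_rep_cr S e e' g2 A, h4, h5, R1C_rep_cr S e e' g2' A']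
    rw [h6, h7]

end cross

theorem R1C_BT {t : ℕ} (S : Finset (Fin t)) (s N : ℕ) (hs : S.card = s) (hN : s + N = t) :
    (R1C_B S).ncard * 2 ^ (N * s) ≤ 2 ^ (t.choose 2) * (R1C_T N s).ncard := by
  classical
  have e : Fin s ≃ {x // x ∈ S} := (S.equivFinOfCardEq hs).symm
  have hc : Fintype.card {x // x ∉ S} = N := by
    rw [Fintype.card_subtype_compl, Fintype.card_coe, Fintype.card_fin]
    omega
  have e' : Fin N ≃ {x // x ∉ S} := (Fintype.equivFinOfCardEq hc).symm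
  refine le_trans (Nat.mul_le_mul_right _ (Set.ncard_le_ncard ?_ ((CNT_fin t).subset fun H h => h.1)))
    (R1C_cross S e e' (R1C_T N s))
  rintro H ⟨hH, p, hp, v, ⟨i, hi, hvi⟩, hv⟩
  refine ⟨hH, p, hp, fun c => v (e c), ?_, ?_⟩
  · intro h0
    apply hvi
    have h1 := congrFun h0 (e.symm ⟨i, hi⟩)
    simp only [Equiv.apply_symm_apply] at h1
    exact h1
  · intro r
    have h1 := hv (e' r) (e' r).2
    unfold dotb R1C_cr
    refine Eq.trans ?_ h1
    rw [← Finset.sum_coe_sort S (fun i => (H (e' r) i : ZMod p) * v i),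
      ← Equiv.sum_comp e (fun i : {x // x ∈ S} => (H (e' r) i : ZMod p) * v i)]
    refine Finset.sum_congr rfl fun c _ => ?_
    rcases hH.1 (e' r) (e c) with h | h <;> simp [h]

/-! ### The algebra -/

theorem R1C_phi (K : Type) [Field K] (p : ℕ) [Fact p.Prime] [CharP K p] (x : K) (hx : x ≠ 0) :
    ∃ φ : K →+ ZMod p, φ x ≠ 0 := by
  letI : Algebra (ZMod p) K := ZMod.algebra K p
  by_contra hcon
  push Not at hcon
  apply hx
  rw [← Module.forall_dual_apply_eq_zero_iff (ZMod p) x]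
  intro f
  exact hcon f.toAddMonoidHom

theorem R1C_phi' (P : Pt) (p : ℕ) (hp : p.Prime) (hab : Above p P) (x : KP P) (hx : x ≠ 0) :
    ∃ φ : KP P →+ ZMod p, φ x ≠ 0 := by
  have := P.isMaximal
  letI : Field (KP P) := Ideal.Quotient.field P.asIdeal
  have : Fact p.Prime := ⟨hp⟩
  have h0 : ((p : ℕ) : KP P) = 0 := by
    have h1 : Ideal.Quotient.mk P.asIdeal ((p : ℕ) : ℤ[X]) = 0 := Ideal.Quotient.eq_zero_iff_mem.2 hab
    rwa [map_natCast] at h1
  have : CharP (KP P) p := by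
    obtain ⟨q, hq⟩ := CharP.exists (KP P)
    have h2 : q ∣ p := (CharP.cast_eq_zero_iff (KP P) q p).1 h0
    rcases (Nat.dvd_prime hp).1 h2 with h3 | h3
    · exfalso
      exact CharP.char_ne_one (KP P) q h3
    · rw [← h3]
      exact hq
  exact R1C_phi (KP P) p x hx

theorem R1C_alg (h1 : FIN_stmt) (P : Pt) {t : ℕ} (H : Matrix (Fin t) (Fin t) ℤ) (hH : IsGr H)
    (u : Fin t → KP P) (hu : u ∈ EigK (KP P) (lamP P) H) (hu0 : u ≠ 0) (S : Finset (Fin t))
    (hS : ∀ j, u j ≠ 0 → j ∈ S) : H ∈ R1C_B S := by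
  obtain ⟨-, p, hp, hab, -, -⟩ := h1 P
  obtain ⟨i₀, hi₀⟩ := Function.ne_iff.1 hu0
  have hi₁ : u i₀ ≠ 0 := hi₀
  obtain ⟨φ, hφ⟩ := R1C_phi' P p hp hab (u i₀) hi₁
  refine ⟨hH, p, hp, fun i => φ (u i), ⟨i₀, hS i₀ hi₁, hφ⟩, ?_⟩
  intro j hj
  have huj : u j = 0 := by
    by_contra h
    exact hj (hS j h)
  have h2 := (mem_EigK.1 hu) j
  rw [huj, mul_zero] at h2
  have h3 : ∑ i ∈ S, (H j i : KP P) * u i = 0 := by
    rw [← h2]
    refine Finset.sum_subset (Finset.subset_univ S) fun i _ hi => ?_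
    have : u i = 0 := by
      by_contra h
      exact hi (hS i h)
    rw [this, mul_zero]
  have h4 := congrArg φ h3
  rw [map_sum, map_zero] at h4
  rw [← h4]
  refine Finset.sum_congr rfl fun i _ => ?_
  rw [← zsmul_eq_mul, ← zsmul_eq_mul, map_zsmul]

theorem R1C_cover (h1 : FIN_stmt) (a t : ℕ) (ht : 2 ^ (7 * a) ≤ t) :
    {H : Matrix (Fin t) (Fin t) ℤ | IsGr H ∧ ¬ R1 a H} ⊆
      ⋃ S ∈ Finset.powersetCard (2 ^ (7 * a)) (Finset.univ : Finset (Fin t)), R1C_B S := by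
  classical
  rintro H ⟨hH, hR⟩
  unfold R1 at hR
  push Not at hR
  obtain ⟨P, -, u, hu, hu0, hc⟩ := hR
  have h2 : (Finset.univ.filter fun j => u j ≠ 0).card ≤ 2 ^ (7 * a) := by
    rw [← Set.ncard_coe_finset]
    refine le_trans (le_of_eq ?_) hc
    congr 1
    ext j
    simp
  obtain ⟨S, hS1, hS2⟩ := Finset.exists_superset_card_eq h2 (by rw [Fintype.card_fin]; exact ht)
  rw [Set.mem_iUnion₂]
  refine ⟨S, Finset.mem_powersetCard.2 ⟨Finset.subset_univ S, hS2⟩, R1C_alg h1 P H hH u hu hu0 S ?_⟩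
  intro j hj
  exact hS1 (Finset.mem_filter.2 ⟨Finset.mem_univ j, hj⟩)

theorem R1C_arith (a τ N t : ℕ) (ha : 4 ≤ a) (hτ : τ = 2 ^ (7 * a)) (ht : 2 ^ (10 * a - 1) ≤ t)
    (hN : τ + N = t) : 11 * a + (10 * a * τ + τ + (14 * a + 1)) ≤ N / 2 := by
  have h1 : 2 ^ (10 * a - 1) = τ * (2 * 2 ^ (3 * a - 2)) := by
    rw [hτ, ← pow_succ', ← pow_add]
    congr 1
    omega
  have h2 : 10 * a + 3 ≤ 2 ^ (3 * a - 2) := by
    obtain ⟨b, rfl⟩ : ∃ b, a = b + 4 := ⟨a - 4, by omega⟩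
    have e : 3 * (b + 4) - 2 = 3 * b + 10 := by omega
    rw [e, pow_add, pow_mul]
    have h3 : b + 1 ≤ (2 ^ 3) ^ b := by
      have := (Nat.lt_pow_self (show 1 < 2 ^ 3 by norm_num) : b < (2 ^ 3) ^ b)
      omega
    nlinarith
  have h3 : 25 * a + 2 ≤ τ := by
    obtain ⟨b, rfl⟩ : ∃ b, a = b + 4 := ⟨a - 4, by omega⟩
    have e : 7 * (b + 4) = 7 * b + 28 := by omega
    rw [hτ, e, pow_add, pow_mul]
    have h3 : b + 1 ≤ (2 ^ 7) ^ b := by
      have := (Nat.lt_pow_self (show 1 < 2 ^ 7 by norm_num) : b < (2 ^ 7) ^ b)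
      omega
    nlinarith
  have h4 : τ * (2 * (10 * a + 3)) ≤ τ * (2 * 2 ^ (3 * a - 2)) :=
    Nat.mul_le_mul_left τ (Nat.mul_le_mul_left 2 h2)
  rw [Nat.le_div_iff_mul_le (by norm_num)]
  nlinarith

theorem R1C (h1 : FIN_stmt) (h2 : TAL_stmt) : R1C_stmt := by
  classical
  intro a t ha ht1 ht2
  obtain ⟨τ, hτ⟩ : ∃ τ, τ = 2 ^ (7 * a) := ⟨_, rfl⟩
  have hτt : τ ≤ t := by
    rw [hτ]
    exact (Nat.pow_le_pow_right (by norm_num) (by omega)).trans ht1
  obtain ⟨N, hN⟩ : ∃ N, τ + N = t := ⟨t - τ, by omega⟩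
  have hT : (R1C_T N τ).ncard * 2 ^ (N / 2) ≤ 2 ^ (N * τ) * (2 ^ τ * (τ ^ 2 + 1)) := h2 N τ
  have hB : ∀ S ∈ Finset.powersetCard τ (Finset.univ : Finset (Fin t)),
      (R1C_B S).ncard * 2 ^ (N / 2) ≤ 2 ^ (t.choose 2) * (2 ^ τ * (τ ^ 2 + 1)) := by
    intro S hS
    have h3 := R1C_BT S τ N (Finset.mem_powersetCard.1 hS).2 hN
    have h4 : (R1C_B S).ncard * 2 ^ (N / 2) * 2 ^ (N * τ) ≤
        2 ^ (t.choose 2) * (2 ^ τ * (τ ^ 2 + 1)) * 2 ^ (N * τ) := by
      calc (R1C_B S).ncard * 2 ^ (N / 2) * 2 ^ (N * τ)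
          = (R1C_B S).ncard * 2 ^ (N * τ) * 2 ^ (N / 2) := by ring
        _ ≤ 2 ^ (t.choose 2) * (R1C_T N τ).ncard * 2 ^ (N / 2) := Nat.mul_le_mul_right _ h3
        _ = 2 ^ (t.choose 2) * ((R1C_T N τ).ncard * 2 ^ (N / 2)) := by ring
        _ ≤ 2 ^ (t.choose 2) * (2 ^ (N * τ) * (2 ^ τ * (τ ^ 2 + 1))) := Nat.mul_le_mul_left _ hT
        _ = _ := by ring
    exact Nat.le_of_mul_le_mul_right h4 (by positivity)
  have hcnt : cnt t (fun H => ¬ R1 a H) ≤
      ∑ S ∈ Finset.powersetCard τ (Finset.univ : Finset (Fin t)), (R1C_B S).ncard := by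
    unfold cnt
    have hcov := R1C_cover h1 a t (by rw [← hτ]; exact hτt)
    rw [← hτ] at hcov
    refine (Set.ncard_le_ncard hcov ?_).trans (Finset.set_ncard_biUnion_le _ _)
    refine (CNT_fin t).subset ?_
    intro H hH
    rw [Set.mem_iUnion₂] at hH
    obtain ⟨S, -, hS⟩ := hH
    exact hS.1
  have hchoose : (Finset.powersetCard τ (Finset.univ : Finset (Fin t))).card ≤ 2 ^ (10 * a * τ) := by
    rw [Finset.card_powersetCard, Finset.card_univ, Fintype.card_fin]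
    refine (Nat.choose_le_pow t τ).trans ?_
    rw [pow_mul]
    exact Nat.pow_le_pow_left ht2 τ
  have hτ2 : τ ^ 2 + 1 ≤ 2 ^ (14 * a + 1) := by
    have e : τ ^ 2 = 2 ^ (14 * a) := by
      rw [hτ, ← pow_mul]
      congr 1
      ring
    rw [e, pow_succ]
    have : 1 ≤ 2 ^ (14 * a) := Nat.one_le_two_pow
    omega
  have hmain : cnt t (fun H => ¬ R1 a H) * 2 ^ (N / 2) ≤
      2 ^ (t.choose 2) * 2 ^ (10 * a * τ + τ + (14 * a + 1)) := by
    calc cnt t (fun H => ¬ R1 a H) * 2 ^ (N / 2)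
        ≤ (∑ S ∈ Finset.powersetCard τ (Finset.univ : Finset (Fin t)), (R1C_B S).ncard) *
            2 ^ (N / 2) := Nat.mul_le_mul_right _ hcnt
      _ = ∑ S ∈ Finset.powersetCard τ (Finset.univ : Finset (Fin t)),
            (R1C_B S).ncard * 2 ^ (N / 2) := Finset.sum_mul _ _ _
      _ ≤ ∑ S ∈ Finset.powersetCard τ (Finset.univ : Finset (Fin t)),
            2 ^ (t.choose 2) * (2 ^ τ * (τ ^ 2 + 1)) := Finset.sum_le_sum hB
      _ = (Finset.powersetCard τ (Finset.univ : Finset (Fin t))).card *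
            (2 ^ (t.choose 2) * (2 ^ τ * (τ ^ 2 + 1))) := by
          rw [Finset.sum_const, smul_eq_mul]
      _ ≤ 2 ^ (10 * a * τ) * (2 ^ (t.choose 2) * (2 ^ τ * 2 ^ (14 * a + 1))) := by
          refine Nat.mul_le_mul hchoose (Nat.mul_le_mul_left _ (Nat.mul_le_mul_left _ hτ2))
      _ = 2 ^ (t.choose 2) * 2 ^ (10 * a * τ + τ + (14 * a + 1)) := by
          rw [pow_add, pow_add]
          ring
  have har := R1C_arith a τ N t ha hτ ht1 hN
  have hfin : cnt t (fun H => ¬ R1 a H) * 2 ^ (11 * a) * 2 ^ (N / 2) ≤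
      2 ^ (t.choose 2) * 2 ^ (N / 2) := by
    calc cnt t (fun H => ¬ R1 a H) * 2 ^ (11 * a) * 2 ^ (N / 2)
        = cnt t (fun H => ¬ R1 a H) * 2 ^ (N / 2) * 2 ^ (11 * a) := by ring
      _ ≤ 2 ^ (t.choose 2) * 2 ^ (10 * a * τ + τ + (14 * a + 1)) * 2 ^ (11 * a) :=
          Nat.mul_le_mul_right _ hmain
      _ = 2 ^ (t.choose 2) * 2 ^ (11 * a + (10 * a * τ + τ + (14 * a + 1))) := by
          rw [pow_add 2 (11 * a)]
          ring
      _ ≤ 2 ^ (t.choose 2) * 2 ^ (N / 2) :=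
          Nat.mul_le_mul_left _ (Nat.pow_le_pow_right (by norm_num) har)
  exact Nat.le_of_mul_le_mul_right hfin (by positivity)

end Pool.Agent.helper42.NS
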